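import Mathlib
import Pool.Agent.Q293.CR.Vis

/-!
# MP_4881ff_pr: strong transience of the conservative random walk is monotone iff `d ≠ 2`

Model (file `Pool/Agent/Q293/CR/Stm.lean`): `Dir d` is the set of the `2 d` directions (axis, sign),
`flags p` the law of independent flags with `b n` on with probability `p n`, `iid d` the law of
independent uniform directions, `law d p` their product, `walk b x n = S n` the position.
-/

set_option autoImplicit false

open MeasureTheory Filter

namespace Pool.Agent.Results.MP_4881ff_pr.MonotoneIffNotPlanar

open Pool.Agent.Q293.CR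

/-- Complete answer to Q1.
(1) In dimension `d ≥ 1` strong transience is monotone in the parameters iff `d ≠ 2`.
(2) For `d ≥ 3` every conservative random walk is strongly transient.
(3) For `d = 1` the walk is strongly transient iff the sum of the `p n` is finite.
(4) For `d = 2` there are deterministic reset patterns `p' ≤ p` (all values `0` or `1`) such that
the walk with `p` is strongly transient while the walk with `p'` almost surely is within distance
`2` of the origin infinitely often. -/
theorem result :
    (∀ (d : ℕ) [NeZero d],
      (∀ p p' : ℕ → unitInterval, (∀ n, 2 ≤ n → p' n ≤ p n) →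
        StronglyTransient d p → StronglyTransient d p') ↔ d ≠ 2) ∧
    (∀ (d : ℕ) [NeZero d], 3 ≤ d → ∀ p : ℕ → unitInterval, StronglyTransient d p) ∧
    (∀ p : ℕ → unitInterval, StronglyTransient 1 p ↔ Summable (fun n => (p n : ℝ))) ∧
    (∃ p p' : ℕ → unitInterval,
      (∀ n, p' n ≤ p n ∧ (p n = 0 ∨ p n = 1) ∧ (p' n = 0 ∨ p' n = 1)) ∧
      StronglyTransient 2 p ∧
      ∀ᵐ w ∂(law 2 p'), ∃ᶠ n in atTop, enorm2 (walk w.1 w.2 n) ≤ 2) := by
  have h := final lo ha bin summ srw one
  exact ⟨h.1, h.2.1, h.2.2, planar⟩

end Pool.Agent.Results.MP_4881ff_pr.MonotoneIffNotPlanar
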